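import Pool.Agent.N600.G3.Stm

/-!
# G3/CNT: the counting theorem
-/

set_option autoImplicit false

namespace Pool.Agent.N558.G3

open Pool.Agent.N600.G3
open scoped Pointwise

universe u

theorem b_one {M F : Type*} [Group M] [Field F] {χ : M →* Fˣ} {b : M → F} (hb : Crossed χ b) :
    b 1 = 0 := by
  have h := hb 1 1
  rw [mul_one, map_one, Units.val_one, one_mul] at h
  have h2 : b 1 + b 1 = b 1 + 0 := by rw [add_zero]; exact h.symm
  exact add_left_cancel h2

theorem b_prod {M F : Type*} [Group M] [Field F] {χ : M →* Fˣ} {b : M → F} (hb : Crossed χ b)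
    (l : List M) (hl : ∀ x ∈ l, b x = 0) : b l.prod = 0 := by
  induction l with
  | nil => rw [List.prod_nil]; exact b_one hb
  | cons a l ih =>
    rw [List.prod_cons, hb, hl a List.mem_cons_self,
      ih fun x hx => hl x (List.mem_cons_of_mem _ hx), mul_zero, add_zero]

theorem b_AA {M F : Type*} [Group M] [Field F] {χ : M →* Fˣ} {b : M → F} (hb : Crossed χ b)
    {K : ℕ} (c : Fin K → M) (hc : ∀ j, b (c j) = 0) (x : Fin K → Bool) : b (AA c x) = 0 := by
  unfold AA
  refine b_prod hb _ fun y hy => ?_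
  rw [List.mem_ofFn] at hy
  obtain ⟨j, rfl⟩ := hy
  by_cases h : x j
  · simp only [h, if_true]; exact hc j
  · simp only [h]; exact b_one hb

theorem ncard_mul {Γ₀ : Type*} [LinearOrderedCommGroupWithZero Γ₀] {ι : Type*} (f : ι → Γ₀)
    (κ : Γ₀) (hκ : κ ≠ 0) : (Set.range fun r => κ * f r).ncard = (Set.range f).ncard := by
  have h : (Set.range fun r => κ * f r) = (fun x => κ * x) '' Set.range f := by
    rw [← Set.range_comp]; rfl
  rw [h]
  exact Set.ncard_image_of_injective _ (mul_right_injective₀ hκ)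

theorem t_cnt (h1 : S_ENTF.{u}) (h2 : S_FIB.{u}) (h3 : S_SEC.{u}) (h4 : S_PRD.{u})
    (h5 : S_TRI.{u}) (h6 : S_EPS.{u}) : S_CNT.{u} := by
  intro M _ F _ Γ₀ _ v K χ b hb c d hbc hbd hdd hv
  classical
  let w : Fin K → M →* Γ₀ := fun k =>
    { toFun := fun x => v (χ k x : F)
      map_one' := by simp
      map_mul' := by intro x y; simp }
  obtain ⟨ε, hε⟩ := h6 M Γ₀ K w c hv
  refine ⟨ε, fun R => ?_⟩
  set U : M := AA c ε with hU
  have hbU : ∀ k, b k U = 0 := fun k => b_AA (hb k) c (hbc k) ε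
  choose g σ hg hX using fun k => h5 M F (χ k) (b k) (hb k) K d k (hbd k)
  let u : Fin K → F := fun k => (χ k U : F)
  let row : (Fin K → Fin R → Bool) → Fin R → Fin K → Bool := fun δ r j => δ j r
  let P : (Fin R → Fin K → Bool) → M := fun δ =>
    (List.ofFn fun r => AA d (δ r) * U * (AA d (δ r))⁻¹).prod
  let X : (Fin K → Fin R → Bool) → Fin K → F := fun δ k => b k (P (row δ))
  have hform : ∀ δ k, X δ k = (1 - u k) * ∑ r : Fin R, u k ^ (r : ℕ) *
      (g k (row δ r) + (σ k (row δ r) : F) * (if δ k r then b k (d k) else 0)) := by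
    intro δ k
    show b k (List.ofFn fun r => AA d (row δ r) * U * (AA d (row δ r))⁻¹).prod = _
    rw [h4 M F (χ k) (b k) (hb k) U (hbU k) R (fun r => AA d (row δ r))]
    congr 1
    refine Finset.sum_congr rfl fun r _ => ?_
    rw [hX]
  have hupd : ∀ δ k x, X (Function.update δ k x) k =
      (1 - u k) * ∑ r : Fin R, u k ^ (r : ℕ) * g k (row δ r) +
      ∑ r : Fin R, (if x r then (1 - u k) * b k (d k) *
        (u k ^ (r : ℕ) * (σ k (row δ r) : F)) else 0) := by
    intro δ k x
    rw [hform, Finset.mul_sum, Finset.mul_sum, ← Finset.sum_add_distrib]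
    refine Finset.sum_congr rfl fun r _ => ?_
    have e := hg k (row (Function.update δ k x) r) (row δ r) (fun i hi => by
      show Function.update δ k x i r = δ i r
      rw [Function.update_of_ne hi.ne])
    rw [e.1, e.2, Function.update_self]
    split_ifs
    · ring
    · ring
  have hdep : ∀ k δ δ', (∀ i ≤ k, δ i = δ' i) → X δ k = X δ' k := by
    intro k δ δ' h
    rw [hform, hform]
    congr 1
    refine Finset.sum_congr rfl fun r _ => ?_
    have e := hg k (row δ r) (row δ' r) (fun i hi => congrFun (h i hi.le) r)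
    rw [e.1, e.2, congrFun (h k le_rfl) r]
  let m : (Fin K → Fin R → Bool) → Fin K → ℕ := fun δ k =>
    if v (u k) ≠ 1 then (Set.range fun r : Fin R =>
      v (u k) ^ (r : ℕ) * v (σ k (row δ r) : F)).ncard else 0
  have hu0 : ∀ k, u k ≠ 0 := fun k => Units.ne_zero _
  have hm : ∀ δ k, 2 ^ m δ k *
      Nat.card {x : Fin R → Bool // X (Function.update δ k x) k = X δ k} ≤
      Fintype.card (Fin R → Bool) := by
    intro δ k
    by_cases hk : v (u k) ≠ 1
    · have hu1 : 1 - u k ≠ 0 := by
        intro h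
        apply hk
        rw [← sub_eq_zero.1 h, map_one]
      have hκ : (1 - u k) * b k (d k) ≠ 0 := mul_ne_zero hu1 (hdd k)
      have h7 := h2 F Γ₀ v R (fun r => (1 - u k) * b k (d k) *
        (u k ^ (r : ℕ) * (σ k (row δ r) : F)))
        (fun r => mul_ne_zero hκ (mul_ne_zero (pow_ne_zero _ (hu0 k)) (Units.ne_zero _)))
        (X δ k - (1 - u k) * ∑ r : Fin R, u k ^ (r : ℕ) * g k (row δ r))
      have h8 : (Set.range fun r : Fin R => v ((1 - u k) * b k (d k) *
          (u k ^ (r : ℕ) * (σ k (row δ r) : F)))).ncard = m δ k := by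
        show _ = if v (u k) ≠ 1 then _ else 0
        rw [if_pos hk]
        refine Eq.trans ?_ (ncard_mul (fun r : Fin R => v (u k) ^ (r : ℕ) *
          v (σ k (row δ r) : F)) (v ((1 - u k) * b k (d k))) ((Valuation.ne_zero_iff v).2 hκ))
        simp only [map_mul, map_pow]
      rw [h8] at h7
      have h9 : Nat.card {x : Fin R → Bool // X (Function.update δ k x) k = X δ k} =
          Nat.card {x : Fin R → Bool // ∑ r : Fin R, (if x r then (1 - u k) * b k (d k) *
            (u k ^ (r : ℕ) * (σ k (row δ r) : F)) else 0) =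
            X δ k - (1 - u k) * ∑ r : Fin R, u k ^ (r : ℕ) * g k (row δ r)} := by
        refine Nat.card_congr (Equiv.subtypeEquivRight fun x => ?_)
        rw [hupd, eq_sub_iff_add_eq, add_comm]
      rw [h9]
      refine h7.trans (le_of_eq ?_)
      simp
    · have h7 : m δ k = 0 := if_neg hk
      rw [h7, pow_zero, one_mul, ← Nat.card_eq_fintype_card]
      exact Nat.card_le_card_of_injective _ Subtype.val_injective
  have hE := h1 K (Fin R → Bool) F X m hdep hm
  -- lower bound for the sum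
  have hlow : ∀ k, v (u k) ≠ 1 → (R : ℝ) / 2 * 2 ^ (K * R) ≤
      ∑ δ : Fin K → Fin R → Bool, (m δ k : ℝ) := by
    intro k hk
    have h7 := h3 Γ₀ (v (u k)) ((Valuation.ne_zero_iff v).2 (hu0 k)) hk (Fin K → Bool)
      (fun x => v (σ k x : F)) (fun x => (Valuation.ne_zero_iff v).2 (Units.ne_zero _)) R
    have h8 : ∑ δ : Fin K → Fin R → Bool, (m δ k : ℝ) = ∑ x : Fin R → Fin K → Bool,
        ((Set.range fun r : Fin R => v (u k) ^ (r : ℕ) * v (σ k (x r) : F)).ncard : ℝ) := by
      refine Fintype.sum_equiv (Equiv.piComm fun (_ : Fin K) (_ : Fin R) => Bool) _ _ fun δ => ?_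
      show ((if v (u k) ≠ 1 then _ else 0 : ℕ) : ℝ) = _
      rw [if_pos hk]
      rfl
    rw [h8]
    refine le_trans (le_of_eq ?_) h7
    rw [Fintype.card_fun, Fintype.card_bool, Fintype.card_fin]
    push_cast
    rw [pow_mul]
  have hgood : (K : ℝ) / 2 ≤ ((Finset.univ.filter fun k => v (u k) ≠ 1).card : ℝ) := by
    have h7 : Set.ncard {k : Fin K | w k (AA c ε) ≠ 1} =
        (Finset.univ.filter fun k => v (u k) ≠ 1).card := by
      rw [← Set.ncard_coe_finset]
      congr 1
      ext k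
      simp only [Finset.coe_filter, Finset.mem_univ, true_and]
      rfl
    rw [h7] at hε
    have : (K : ℝ) ≤ 2 * ((Finset.univ.filter fun k => v (u k) ≠ 1).card : ℝ) := by
      exact_mod_cast hε
    linarith
  have hsum : (K : ℝ) / 2 * ((R : ℝ) / 2 * 2 ^ (K * R)) ≤
      ∑ δ : Fin K → Fin R → Bool, ∑ k, (m δ k : ℝ) := by
    rw [Finset.sum_comm]
    calc (K : ℝ) / 2 * ((R : ℝ) / 2 * 2 ^ (K * R))
        ≤ ((Finset.univ.filter fun k => v (u k) ≠ 1).card : ℝ) * ((R : ℝ) / 2 * 2 ^ (K * R)) :=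
          mul_le_mul_of_nonneg_right hgood (by positivity)
      _ = ∑ k ∈ Finset.univ.filter (fun k => v (u k) ≠ 1), (R : ℝ) / 2 * 2 ^ (K * R) := by
          rw [Finset.sum_const, nsmul_eq_mul]
      _ ≤ ∑ k ∈ Finset.univ.filter (fun k => v (u k) ≠ 1),
            ∑ δ : Fin K → Fin R → Bool, (m δ k : ℝ) :=
          Finset.sum_le_sum fun k hk => hlow k (Finset.mem_filter.1 hk).2
      _ ≤ _ := Finset.sum_le_sum_of_subset_of_nonneg (Finset.filter_subset _ _)
            fun k _ _ => Finset.sum_nonneg fun δ _ => Nat.cast_nonneg _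
  set N : ℕ := Nat.card (Set.range X) with hN
  have hNpos : 0 < N := by
    rw [hN, Nat.card_coe_set_eq]
    exact (Set.ncard_pos (Set.finite_range X)).2 (Set.range_nonempty X)
  have hlog : ((K * R : ℕ) : ℝ) * Real.log 2 ≤ 4 * Real.log N := by
    have hB : ((Fintype.card (Fin R → Bool) : ℕ) : ℝ) ^ K = 2 ^ (K * R) := by
      rw [Fintype.card_fun, Fintype.card_bool, Fintype.card_fin]
      push_cast
      rw [← pow_mul, mul_comm]
    rw [hB] at hE
    have h7 := (mul_le_mul_of_nonneg_left hsum (Real.log_nonneg (by norm_num : (1 : ℝ) ≤ 2))).trans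
      hE
    have hp : (0 : ℝ) < 2 ^ (K * R) := by positivity
    have h8 : (2 : ℝ) ^ (K * R) * (((K * R : ℕ) : ℝ) * Real.log 2) ≤
        2 ^ (K * R) * (4 * Real.log N) := by
      push_cast
      nlinarith [h7]
    exact le_of_mul_le_mul_left h8 hp
  have hfin : 2 ^ (K * R) ≤ N ^ 4 := by
    have h7 : Real.log ((2 : ℝ) ^ (K * R)) ≤ Real.log ((N : ℝ) ^ 4) := by
      rw [Real.log_pow, Real.log_pow]
      exact_mod_cast hlog
    have hNR : (0 : ℝ) < N := by exact_mod_cast hNpos
    have h8 := (Real.log_le_log_iff (by positivity) (by positivity)).1 h7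
    exact_mod_cast h8
  refine hfin.trans (Nat.pow_le_pow_left ?_ 4)
  have hsub : Set.range X ⊆ (fun y : M => fun k => b k y) '' Set.range P := by
    rintro _ ⟨δ, rfl⟩
    exact ⟨P (row δ), ⟨row δ, rfl⟩, rfl⟩
  have hPfin : (Set.range P).Finite := Set.finite_range P
  rw [hN, Nat.card_coe_set_eq, Nat.card_coe_set_eq]
  exact (Set.ncard_le_ncard hsub (hPfin.image _)).trans (Set.ncard_image_le hPfin)

end Pool.Agent.N558.G3
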